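import Pool.Agent.Lib.H30F.SD
import Pool.Agent.Lib.H98M.M0

/-!
# H30D, file C4: the disconnected sets of a graph which is not 2-connected form an acyclic poset
-/

set_option autoImplicit false
set_option linter.unusedSectionVars false

namespace H30D

open Finset H98P H98Z H98M H63F H30F

section ab

variable {E : Type*} [Fintype E] [DecidableEq E]

/-- Deletion and link of a vertex. -/
theorem ac_vertex {K : Finset E → Prop} (hK : Dn K) (a : E)
    (h1 : AC fun s => K s ∧ a ∉ s) (h2 : AC fun s => K (insert a s) ∧ a ∉ s) : AC K := by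
  have d1 : Dn fun s => K s ∧ a ∉ s := fun s t hst h => ⟨hK s t hst h.1, fun hs => h.2 (hst hs)⟩
  have d2 : Dn fun s => K (insert a s) := fun s t hst h => hK _ _ (insert_subset_insert a hst) h
  have a2 : AC fun s => K (insert a s) := H96H.ac_cone d2 a fun s hs => by
    rw [insert_idem]
    exact hs
  have a12 : AC fun s => (K s ∧ a ∉ s) ∧ K (insert a s) :=
    ac_congr (K := fun s => K (insert a s) ∧ a ∉ s)
      (fun s => ⟨fun h => ⟨⟨hK _ _ (subset_insert a s) h.1, h.2⟩, h.1⟩, fun h => ⟨h.2, h.1.2⟩⟩) h2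
  refine ac_congr (K := fun s => (K s ∧ a ∉ s) ∨ K (insert a s)) (fun s => ?_)
    (ac_union d1 d2 h1 a2 a12)
  constructor
  · rintro (h | h)
    · exact h.1
    · exact hK _ _ (subset_insert a s) h
  · intro h
    by_cases ha : a ∈ s
    · right
      rwa [insert_eq_of_mem ha]
    · exact Or.inl ⟨h, ha⟩

theorem ac_void {K : Finset E → Prop} (h : ∀ s, ¬ K s) : AC K := by
  intro z hz _
  refine ⟨fun _ => 0, fun s hs => absurd rfl hs, fun r => ?_⟩
  rw [bd_zero]
  by_contra hc
  exact h r (hz r (Ne.symm hc))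

end ab

/-- A map which goes down, below a fixed member. -/
theorem ac_down {α : Type*} [PartialOrder α] [Fintype α] [DecidableEq α] {P : α → Prop}
    (f : α → α) (a : α) (ha : P a) (hf : ∀ x, P x → P (f x))
    (fm : ∀ x x', P x → P x' → x ≤ x' → f x ≤ f x') (fx : ∀ x, P x → f x ≤ x)
    (fa : ∀ x, P x → f x ≤ a) : AC (Ch P) := by
  have hQ : AC (Ch fun x => P x ∧ x ≤ a) := ac_ch_cone (a := a) ⟨ha, le_rfl⟩ fun x hx => Or.inr hx.2
  have hfi : ∀ s, Ch P s → Ch (fun x => P x ∧ x ≤ a) (s.image f) := by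
    intro s hs
    refine ⟨fun y hy => ?_, fun y hy y' hy' => ?_⟩
    · obtain ⟨x, hx, rfl⟩ := mem_image.1 hy
      exact ⟨hf x (hs.1 x hx), fa x (hs.1 x hx)⟩
    · obtain ⟨x, hx, rfl⟩ := mem_image.1 hy
      obtain ⟨x', hx', rfl⟩ := mem_image.1 hy'
      rcases hs.2 x hx x' hx' with h | h
      · exact Or.inl (fm x x' (hs.1 x hx) (hs.1 x' hx') h)
      · exact Or.inr (fm x' x (hs.1 x' hx') (hs.1 x hx) h)
  refine ac_transfer (Ch P) (Ch fun x => P x ∧ x ≤ a) ch_dn ch_dn (ch_empty P) (ch_empty _)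
    (fun s T => T ⊆ s.image f) (fun t U => U ⊆ t)
    (fun s U => Ch P U ∧ ∃ m ∈ s, ∀ u ∈ U, u ≤ m)
    ?_ ?_ ?_ ?_ ?_ ?_ ?_ ?_ ?_ ?_ ?_ ?_ ?_ hQ
  · exact fun s t hst _ _ r hr => hr.trans (image_subset_image hst)
  · exact fun s _ _ => empty_subset _
  · exact fun s _ hn => ac_simplex (hn.image f)
  · exact fun s hs _ r hr => ch_dn _ _ hr (hfi s hs)
  · exact fun s t hst _ _ r hr => hr.trans hst
  · exact fun s _ _ => empty_subset _
  · exact fun s _ hn => ac_simplex hn
  · exact fun s hs _ r hr => ch_dn _ _ hr (ch_mono (fun x hx => hx.1) hs)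
  · rintro s t hst _ _ r ⟨h1, m, hm, h2⟩
    exact ⟨h1, m, hst hm, h2⟩
  · intro s hs hn
    obtain ⟨m, hm, h⟩ := ch_max hs hn
    exact ⟨hs, m, hm, h⟩
  · intro s hs hn
    obtain ⟨m, hm, h⟩ := ch_max hs hn
    refine H96H.ac_cone ?_ m ?_
    · rintro U U' hU ⟨h1, m', hm', h2⟩
      exact ⟨ch_dn _ _ hU h1, m', hm', fun u hu => h2 u (hU hu)⟩
    · rintro U ⟨h1, m', hm', h2⟩
      refine ⟨ch_insert h1 (hs.1 m hm) fun x hx => Or.inr ((h2 x hx).trans (h m' hm')), m, hm, ?_⟩
      intro u hu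
      rcases mem_insert.1 hu with h3 | h3
      · rw [h3]
      · exact (h2 u h3).trans (h m' hm')
  · exact fun s _ _ r hr => hr.1
  · intro s t r hs hn h1 _ h3
    refine ⟨ch_dn _ _ (h3.trans h1) (ch_mono (fun x hx => hx.1) (hfi s hs)), ?_⟩
    obtain ⟨m, hm, h⟩ := ch_max hs hn
    refine ⟨m, hm, fun u hu => ?_⟩
    obtain ⟨x, hx, rfl⟩ := mem_image.1 (h1 (h3 hu))
    exact (fx x (hs.1 x hx)).trans (h x hx)

/-- Upper fibres. -/
theorem ac_upper {α : Type*} [PartialOrder α] [Fintype α] [DecidableEq α] {X P : α → Prop}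
    (hXP : ∀ x, X x → P x) (hfib : ∀ p, P p → AC (Ch fun x => X x ∧ p ≤ x)) (hP : AC (Ch P)) :
    AC (Ch X) := by
  refine ac_transfer (Ch X) (Ch P) ch_dn ch_dn (ch_empty X) (ch_empty _)
    (fun s T => T ⊆ s) (fun t => Ch fun x => X x ∧ ∃ m ∈ t, m ≤ x)
    (fun s => Ch fun x => X x ∧ ∃ m ∈ s, m ≤ x)
    ?_ ?_ ?_ ?_ ?_ ?_ ?_ ?_ ?_ ?_ ?_ ?_ ?_ hP
  · exact fun s t hst _ _ r hr => hr.trans hst
  · exact fun s _ _ => empty_subset _
  · exact fun s _ hn => ac_simplex hn
  · exact fun s hs _ r hr => ch_dn _ _ hr (ch_mono hXP hs)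
  · exact fun s t hst _ _ r hr => ch_mono (fun x hx => ⟨hx.1, hx.2.choose, hst hx.2.choose_spec.1,
      hx.2.choose_spec.2⟩) hr
  · exact fun s _ _ => ch_empty _
  · intro s hs hn
    obtain ⟨m, hm, h⟩ := ch_min hs hn
    refine ac_congr (K := Ch fun x => X x ∧ m ≤ x) (fun U => ?_) (hfib m (hs.1 m hm))
    exact ⟨fun h1 => ch_mono (fun x hx => ⟨hx.1, m, hm, hx.2⟩) h1,
      fun h1 => ch_mono (fun x hx => ⟨hx.1, (h _ hx.2.choose_spec.1).trans hx.2.choose_spec.2⟩) h1⟩
  · exact fun s hs _ r hr => ch_mono (fun x hx => hx.1) hr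
  · exact fun s t hst _ _ r hr => ch_mono (fun x hx => ⟨hx.1, hx.2.choose, hst hx.2.choose_spec.1,
      hx.2.choose_spec.2⟩) hr
  · exact fun s hs _ => ⟨fun x hx => ⟨hs.1 x hx, x, hx, le_rfl⟩, hs.2⟩
  · intro s hs hn
    obtain ⟨m, hm, h⟩ := ch_min hs hn
    exact ac_ch_cone (a := m) ⟨hs.1 m hm, m, hm, le_rfl⟩ fun x hx =>
      Or.inl ((h _ hx.2.choose_spec.1).trans hx.2.choose_spec.2)
  · exact fun s hs _ r hr => ch_mono (fun x hx => hx.1) hr
  · intro s t r hs hn h1 _ h3
    exact ch_mono (fun x hx => ⟨hx.1, hx.2.choose, h1 hx.2.choose_spec.1, hx.2.choose_spec.2⟩) h3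

section gr

variable {V : Type*} [Fintype V] [DecidableEq V]

/-- A set of vertices disjoint from `Z` which together with `Z` lies in a disconnected subset
of `U`. -/
def Rr (G : Finset (Sym2 V)) (U Z M : Finset V) : Prop :=
  M ⊆ U \ Z ∧ ∃ W, M ∪ Z ⊆ W ∧ W ⊆ U ∧ Disc W G

theorem rr_dn {G : Finset (Sym2 V)} {U Z : Finset V} : Dn (Rr G U Z) := by
  rintro s t hst ⟨h1, W, h2, h3, h4⟩
  exact ⟨hst.trans h1, W, (union_subset_union hst Subset.rfl).trans h2, h3, h4⟩

/-- If `Z` is not disconnected and lies in the disconnected set `W`, it lies in one part. -/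
theorem disc_part {G : Finset (Sym2 V)} {Z W : Finset V} (hZ : Z.Nonempty) (hn : ¬ Disc Z G)
    (hZW : Z ⊆ W) (hW : Disc W G) : ∃ C D : Finset V, D.Nonempty ∧ Disjoint C D ∧
      C ∪ D = W ∧ Z ⊆ C ∧ ∀ x ∈ C, ∀ y ∈ D, s(x, y) ∉ G := by
  obtain ⟨C, D, hC, hD, hCD, hW, h⟩ := hW
  by_cases h1 : Z ∩ D = ∅
  · refine ⟨C, D, hD, hCD, hW, fun z hz => ?_, h⟩
    have h2 := hZW hz
    rw [← hW, mem_union] at h2
    rcases h2 with h2 | h2
    · exact h2
    · exact absurd (mem_inter.2 ⟨hz, h2⟩) (by rw [h1]; exact notMem_empty z)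
  · by_cases h2 : Z ∩ C = ∅
    · refine ⟨D, C, hC, hCD.symm, by rw [union_comm]; exact hW, fun z hz => ?_, fun x hx y hy => ?_⟩
      · have h3 := hZW hz
        rw [← hW, mem_union] at h3
        rcases h3 with h3 | h3
        · exact absurd (mem_inter.2 ⟨hz, h3⟩) (by rw [h2]; exact notMem_empty z)
        · exact h3
      · rw [Sym2.eq_swap]
        exact h y hy x hx
    · exfalso
      refine hn ⟨Z ∩ C, Z ∩ D, nonempty_iff_ne_empty.2 h2, nonempty_iff_ne_empty.2 h1,
        disjoint_of_subset_left inter_subset_right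
          (disjoint_of_subset_right inter_subset_right hCD), ?_,
        fun x hx y hy => h x (mem_inter.1 hx).2 y (mem_inter.1 hy).2⟩
      rw [← inter_union_distrib_left, hW]
      exact inter_eq_left.2 hZW

theorem ac_R {G : Finset (Sym2 V)} (n : ℕ) : ∀ U Z : Finset V, (U \ Z).card ≤ n → Z ⊆ U →
    Z.Nonempty → ¬ Disc Z G → AC (Rr G U Z) := by
  induction n with
  | zero =>
    intro U Z hc hZU hZ hn
    refine ac_void fun M hM => ?_
    obtain ⟨-, W, h2, h3, h4⟩ := hM
    have h5 : U \ Z = ∅ := card_eq_zero.1 (by omega)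
    have h6 : W = Z := (h3.trans (sdiff_eq_empty_iff_subset.1 h5)).antisymm
      (subset_union_right.trans h2)
    exact hn (h6 ▸ h4)
  | succ n ih =>
    intro U Z hc hZU hZ hn
    by_cases hy : ∃ y ∈ U \ Z, ∃ z ∈ Z, s(z, y) ∈ G
    · obtain ⟨y, hy, z, hz, hzy⟩ := hy
      rw [mem_sdiff] at hy
      have hn' : ¬ Disc (insert y Z) G := by
        intro hdz
        obtain ⟨C, D, hD, hCD, hW, hZC, h⟩ := disc_part hZ hn (subset_insert y Z) hdz
        obtain ⟨d, hdd⟩ := hD
        have h1 : d ∈ insert y Z := by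
          rw [← hW]
          exact mem_union_right _ hdd
        rcases mem_insert.1 h1 with h2 | h2
        · exact h z (hZC hz) d hdd (h2 ▸ hzy)
        · exact disjoint_left.1 hCD (hZC h2) hdd
      have c1 : (U \ insert y Z).card ≤ n := by
        have : (U \ insert y Z) = (U \ Z).erase y := by
          ext v
          simp only [mem_sdiff, mem_insert, mem_erase]
          tauto
        rw [this, card_erase_of_mem (mem_sdiff.2 hy)]
        omega
      have c2 : (U.erase y \ Z).card ≤ n := by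
        have : (U.erase y \ Z) = (U \ Z).erase y := by
          ext v
          simp only [mem_sdiff, mem_erase]
          tauto
        rw [this, card_erase_of_mem (mem_sdiff.2 hy)]
        omega
      refine ac_vertex rr_dn y ?_ ?_
      · refine ac_congr (K := Rr G (U.erase y) Z) (fun s => ?_)
          (ih (U.erase y) Z c2 (fun v hv => mem_erase.2 ⟨fun e => hy.2 (e ▸ hv), hZU hv⟩) hZ hn)
        constructor
        · rintro ⟨h1, W, h2, h3, h4⟩
          refine ⟨⟨fun v hv => ?_, W, h2, h3.trans (erase_subset y U), h4⟩, fun hys => ?_⟩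
          · have h5 := mem_sdiff.1 (h1 hv)
            exact mem_sdiff.2 ⟨mem_of_mem_erase h5.1, h5.2⟩
          · exact (mem_erase.1 (mem_sdiff.1 (h1 hys)).1).1 rfl
        · rintro ⟨⟨h1, W, h2, h3, h4⟩, hys⟩
          obtain ⟨C, D, hD, hCD, hW, hZC, h⟩ := disc_part hZ hn (subset_union_right.trans h2) h4
          have hyD : y ∉ D := fun hd => h z (hZC hz) y hd hzy
          refine ⟨fun v hv => ?_, W.erase y, fun v hv => ?_, erase_subset_erase y h3,
            C.erase y, D, ?_, hD, ?_, ?_, fun x hx d hd => h x (mem_of_mem_erase hx) d hd⟩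
          · have h5 := mem_sdiff.1 (h1 hv)
            exact mem_sdiff.2 ⟨mem_erase.2 ⟨fun e => hys (e ▸ hv), h5.1⟩, h5.2⟩
          · refine mem_erase.2 ⟨fun e => ?_, h2 hv⟩
            subst e
            rcases mem_union.1 hv with h5 | h5
            · exact hys h5
            · exact hy.2 h5
          · obtain ⟨w, hw⟩ := hZ
            exact ⟨w, mem_erase.2 ⟨fun e => hy.2 (e ▸ hw), hZC hw⟩⟩
          · exact disjoint_of_subset_left (erase_subset y C) hCD
          · rw [← hW]
            ext v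
            simp only [mem_union, mem_erase]
            constructor
            · rintro (⟨h5, h6⟩ | h5)
              · exact ⟨h5, Or.inl h6⟩
              · exact ⟨fun e => hyD (e ▸ h5), Or.inr h5⟩
            · rintro ⟨h5, h6 | h6⟩
              · exact Or.inl ⟨h5, h6⟩
              · exact Or.inr h6
      · refine ac_congr (K := Rr G U (insert y Z)) (fun s => ?_)
          (ih U (insert y Z) c1 (insert_subset hy.1 hZU) (insert_nonempty y Z) hn')
        constructor
        · rintro ⟨h1, W, h2, h3, h4⟩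
          refine ⟨⟨?_, W, ?_, h3, h4⟩, fun hys => ?_⟩
          · intro v hv
            rcases mem_insert.1 hv with h5 | h5
            · subst h5
              exact mem_sdiff.2 hy
            · have h6 := mem_sdiff.1 (h1 h5)
              exact mem_sdiff.2 ⟨h6.1, fun h7 => h6.2 (mem_insert_of_mem h7)⟩
          · intro v hv
            apply h2
            simp only [mem_union, mem_insert] at hv ⊢
            tauto
          · exact (mem_sdiff.1 (h1 hys)).2 (mem_insert_self y Z)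
        · rintro ⟨⟨h1, W, h2, h3, h4⟩, hys⟩
          refine ⟨fun v hv => ?_, W, ?_, h3, h4⟩
          · have h5 := mem_sdiff.1 (h1 (mem_insert_of_mem hv))
            refine mem_sdiff.2 ⟨h5.1, fun h6 => ?_⟩
            rcases mem_insert.1 h6 with h7 | h7
            · exact hys (h7 ▸ hv)
            · exact h5.2 h7
          · intro v hv
            apply h2
            simp only [mem_union, mem_insert] at hv ⊢
            tauto
    · push Not at hy
      by_cases he : (U \ Z).Nonempty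
      · refine ac_congr (K := fun s => s ⊆ U \ Z) (fun s => ?_) (ac_simplex he)
        refine ⟨fun h => ⟨h, U, union_subset (h.trans sdiff_subset) hZU, Subset.rfl,
          Z, U \ Z, hZ, he, disjoint_sdiff, union_sdiff_of_subset hZU,
          fun x hx v hv => hy v hv x hx⟩, fun h => h.1⟩
      · refine ac_void fun M hM => ?_
        obtain ⟨-, W, h2, h3, h4⟩ := hM
        have h5 : U \ Z = ∅ := not_nonempty_iff_eq_empty.1 he
        have h6 : W = Z := (h3.trans (sdiff_eq_empty_iff_subset.1 h5)).antisymm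
          (subset_union_right.trans h2)
        exact hn (h6 ▸ h4)

theorem not_disc_singleton {G : Finset (Sym2 V)} (z : V) : ¬ Disc ({z} : Finset V) G := by
  rintro ⟨C, D, ⟨c, hc⟩, ⟨d, hd⟩, hCD, hW, -⟩
  have h1 : c ∈ ({z} : Finset V) := hW ▸ mem_union_left _ hc
  have h2 : d ∈ ({z} : Finset V) := hW ▸ mem_union_right _ hd
  rw [mem_singleton] at h1 h2
  subst h1
  exact disjoint_left.1 hCD hc (h2 ▸ hd)

/-- The complex of the sets which are not connected and dominating. -/
theorem ac_N {G : Finset (Sym2 V)} {z : V} (hz : Disc (univ.erase z) G) :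
    AC fun M : Finset V => ∃ W, M ⊆ W ∧ Disc W G := by
  have hne : (univ.erase z : Finset V).Nonempty := by
    obtain ⟨C, D, ⟨c, hc⟩, -, -, hW, -⟩ := hz
    exact ⟨c, hW ▸ mem_union_left _ hc⟩
  refine ac_vertex (fun s t hst ⟨W, h1, h2⟩ => ⟨W, hst.trans h1, h2⟩) z ?_ ?_
  · refine ac_congr (K := fun s => s ⊆ univ.erase z) (fun s => ?_) (ac_simplex hne)
    exact ⟨fun h => ⟨⟨_, h, hz⟩, fun hs => (mem_erase.1 (h hs)).1 rfl⟩,
      fun h v hv => mem_erase.2 ⟨fun e => h.2 (e ▸ hv), mem_univ v⟩⟩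
  · refine ac_congr (K := Rr G univ {z}) (fun s => ?_)
      (ac_R _ univ {z} le_rfl (subset_univ _) (singleton_nonempty z) (not_disc_singleton z))
    constructor
    · rintro ⟨h1, W, h2, -, h4⟩
      refine ⟨⟨W, ?_, h4⟩, fun hs => ?_⟩
      · intro v hv
        apply h2
        simp only [mem_union, mem_insert, mem_singleton] at hv ⊢
        tauto
      · exact (mem_sdiff.1 (h1 hs)).2 (mem_singleton_self z)
    · rintro ⟨⟨W, h1, h2⟩, hzs⟩
      refine ⟨fun v hv => mem_sdiff.2 ⟨mem_univ v, fun h3 => ?_⟩, W, ?_, subset_univ _, h2⟩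
      · rw [mem_singleton] at h3
        exact hzs (h3 ▸ hv)
      · intro v hv
        apply h1
        simp only [mem_union, mem_insert, mem_singleton] at hv ⊢
        tauto

/-- The disconnected sets above a given set (void or acyclic). -/
theorem ac_above {G : Finset (Sym2 V)} {M : Finset V} (hM : M.Nonempty)
    (hW : ∃ W, M ⊆ W ∧ Disc W G) : AC (Ch fun W : Finset V => Disc W G ∧ M ≤ W) := by
  classical
  by_cases hd : Disc M G
  · exact ac_ch_cone (a := M) ⟨hd, le_rfl⟩ fun x hx => Or.inl hx.2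
  · obtain ⟨Q, hQ⟩ : ∃ Q : Finset V, ∀ v, v ∈ Q ↔ v ∉ M ∧ ∀ m ∈ M, s(m, v) ∉ G :=
      ⟨univ.filter fun v => v ∉ M ∧ ∀ m ∈ M, s(m, v) ∉ G, fun v => by simp⟩
    have hMQ : Disjoint M Q := disjoint_left.2 fun v h1 h2 => ((hQ v).1 h2).1 h1
    have key : ∀ W : Finset V, M ⊆ W → Disc W G → (W ∩ Q).Nonempty := by
      intro W h1 h2
      obtain ⟨C, D, ⟨d, hd'⟩, hCD, hW', hMC, h⟩ := disc_part hM hd h1 h2
      refine ⟨d, mem_inter.2 ⟨hW' ▸ mem_union_right _ hd', (hQ d).2 ⟨fun h3 =>
        disjoint_left.1 hCD (hMC h3) hd', fun m hm => h m (hMC hm) d hd'⟩⟩⟩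
    have hdisc : ∀ Y : Finset V, Y ⊆ Q → Y.Nonempty → Disc (M ∪ Y) G := by
      intro Y h1 h2
      exact ⟨M, Y, hM, h2, disjoint_of_subset_right h1 hMQ, rfl,
        fun x hx y hy => ((hQ y).1 (h1 hy)).2 x hx⟩
    have hQn : Q.Nonempty := by
      obtain ⟨W, h1, h2⟩ := hW
      exact (key W h1 h2).mono inter_subset_right
    refine ac_down (fun W => M ∪ (W ∩ Q)) (M ∪ Q) ⟨hdisc Q Subset.rfl hQn, subset_union_left⟩
      (fun W h => ⟨hdisc _ inter_subset_right (key W h.2 h.1), subset_union_left⟩)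
      (fun W W' _ _ h => union_subset_union Subset.rfl (inter_subset_inter h Subset.rfl))
      (fun W h => union_subset h.2 inter_subset_left)
      (fun W _ => union_subset_union Subset.rfl inter_subset_right)

/-- CHUNK C4: if `G` is disconnected or has a cut vertex, the poset of the vertex sets on which
`G` is disconnected is acyclic. -/
theorem ac_disc (G : Finset (Sym2 V))
    (h : Disc univ G ∨ ∃ z, Disc (univ.erase z) G) :
    AC (Ch fun W : Finset V => Disc W G) := by
  rcases h with h | ⟨z, hz⟩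
  · exact ac_ch_cone (a := univ) h fun x _ => Or.inr (subset_univ x)
  · refine ac_upper (P := fun M : Finset V => (∃ W, M ⊆ W ∧ Disc W G) ∧ M.Nonempty) ?_ ?_ ?_
    · intro W hW
      refine ⟨⟨W, Subset.rfl, hW⟩, ?_⟩
      obtain ⟨C, D, ⟨c, hc⟩, -, -, hW, -⟩ := hW
      exact ⟨c, hW ▸ mem_union_left _ hc⟩
    · exact fun M hM => ac_above hM.2 hM.1
    · exact ac_sd (fun s t hst ⟨W, h1, h2⟩ => ⟨W, hst.trans h1, h2⟩)
        ⟨_, empty_subset _, hz⟩ (ac_N hz)

end gr

end H30D
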