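import Pool.Agent.Lib.H30D.C4
import Pool.Agent.Lib.H33TF.T

/-!
# H30D, file K: truncated acyclicity of the poset of the disconnected sets from that of the complex
of the sets which are not connected dominating sets
-/

set_option autoImplicit false
set_option linter.unusedSectionVars false

namespace H30D

open Finset H98P H98Z H98M H63F H30F H70H

variable {V : Type*} [Fintype V] [DecidableEq V]

theorem disc_pair {G : Finset (Sym2 V)} {a b : V} (hab : a ≠ b) (h : s(a, b) ∉ G) :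
    Disc ({a, b} : Finset V) G := by
  refine ⟨{a}, {b}, singleton_nonempty a, singleton_nonempty b, disjoint_singleton.2 hab, rfl, ?_⟩
  intro x hx y hy
  rw [mem_singleton] at hx hy
  rw [hx, hy]
  exact h

/-- A graph with at most `2n - 4` edges has a non-edge. -/
theorem exists_disc {G : Finset (Sym2 V)} (h2 : 2 ≤ Fintype.card V)
    (h : G.card + 4 ≤ 2 * Fintype.card V) : ∃ W, Disc W G := by
  classical
  by_contra hno
  have h1 : ∀ a b : V, a ≠ b → s(a, b) ∈ G := by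
    intro a b hab
    by_contra h3
    exact hno ⟨_, disc_pair hab h3⟩
  have h3 : (⊤ : SimpleGraph V).edgeFinset ⊆ G := by
    intro e he
    induction e using Sym2.ind with
    | _ a b =>
      rw [SimpleGraph.mem_edgeFinset, SimpleGraph.mem_edgeSet, SimpleGraph.top_adj] at he
      exact h1 a b he
  have h4 := card_le_card h3
  rw [SimpleGraph.card_edgeFinset_top_eq_card_choose_two, Nat.choose_two_right] at h4
  obtain ⟨n, hn⟩ : ∃ n, n = Fintype.card V := ⟨_, rfl⟩
  rw [← hn] at h2 h h4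
  have h5 : n * (n - 1) / 2 + 4 ≤ 2 * n := by omega
  have h6 : n * (n - 1) ≤ 2 * (n * (n - 1) / 2) + 1 := by omega
  obtain ⟨m, rfl⟩ : ∃ m, n = m + 2 := ⟨n - 2, by omega⟩
  have h7 : (m + 2) * (m + 2 - 1) = m * m + 3 * m + 2 := by
    have : m + 2 - 1 = m + 1 := by omega
    rw [this]
    ring
  rw [h7] at h5 h6
  have h8 : m * m + 3 * m + 2 + 7 ≤ 4 * (m + 2) := by omega
  nlinarith [mul_self_nonneg ((m : ℤ) - 1), h8]

/-- FROM THE COMPLEX TO THE POSET. -/
theorem ack_disc_of {k : ℕ} {G : Finset (Sym2 V)} (h0 : ∃ W, Disc W G)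
    (hN : ACk k fun M : Finset V => ∃ W, M ⊆ W ∧ Disc W G) :
    ACk k (Ch fun W : Finset V => Disc W G) := by
  refine H33TF.ack_fibre (N := fun M => ∃ W, M ⊆ W ∧ Disc W G) ?_ ?_ (H33TF.ack_sd ?_ ?_ hN)
  · intro W hW
    refine ⟨⟨W, Subset.rfl, hW⟩, ?_⟩
    obtain ⟨C, D, ⟨c, hc⟩, -, -, h1, -⟩ := hW
    exact ⟨c, h1 ▸ mem_union_left _ hc⟩
  · intro M hM hne
    refine ac_congr (K := Ch fun W : Finset V => Disc W G ∧ M ≤ W) (fun s => ?_) (ac_above hne hM)
    constructor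
    · exact fun h => ch_mono (fun x hx => ⟨hx.2, hx.1⟩) h
    · exact fun h => ch_mono (fun x hx => ⟨hx.2, hx.1⟩) h
  · rintro s t hst ⟨W, h1, h2⟩
    exact ⟨W, hst.trans h1, h2⟩
  · obtain ⟨W, hW⟩ := h0
    exact ⟨W, empty_subset _, hW⟩

/-- The two forms of the complex. -/
theorem cds_iff {G : Finset (Sym2 V)} {M : Finset V} (h0 : ∃ W, Disc W G) :
    (∃ W, M ⊆ W ∧ Disc W G) ↔
      ¬ (M.Nonempty ∧ ¬ Disc M G ∧ ∀ v, v ∉ M → ∃ m ∈ M, s(v, m) ∈ G) := by
  classical
  constructor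
  · rintro ⟨W, h1, h2⟩ ⟨hne, hd, hdom⟩
    obtain ⟨C, D, ⟨d, hd'⟩, hCD, -, hMC, h⟩ := disc_part hne hd h1 h2
    have hdM : d ∉ M := fun h3 => disjoint_left.1 hCD (hMC h3) hd'
    obtain ⟨m, hm, h3⟩ := hdom d hdM
    rw [Sym2.eq_swap] at h3
    exact h m (hMC hm) d hd' h3
  · intro h
    by_cases hne : M.Nonempty
    · by_cases hd : Disc M G
      · exact ⟨M, Subset.rfl, hd⟩
      · by_contra hno
        refine h ⟨hne, hd, fun v hv => ?_⟩
        by_contra h3
        refine hno ⟨insert v M, subset_insert v M, M, {v}, hne, singleton_nonempty v,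
          disjoint_singleton_right.2 hv, by rw [union_comm]; rfl, ?_⟩
        intro x hx y hy h4
        rw [mem_singleton] at hy
        subst hy
        rw [Sym2.eq_swap] at h4
        exact h3 ⟨x, hx, h4⟩
    · rw [not_nonempty_iff_eq_empty] at hne
      obtain ⟨W, hW⟩ := h0
      exact ⟨W, by rw [hne]; exact empty_subset _, hW⟩

/-- FROM THE COMPLEX TO THE POSET, second form of the complex. -/
theorem ack_disc_of' {k : ℕ} {G : Finset (Sym2 V)} (h0 : ∃ W, Disc W G)
    (hN : ACk k fun M : Finset V =>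
      ¬ (M.Nonempty ∧ ¬ Disc M G ∧ ∀ v, v ∉ M → ∃ m ∈ M, s(v, m) ∈ G)) :
    ACk k (Ch fun W : Finset V => Disc W G) := by
  refine ack_disc_of h0 ?_
  have h1 : (fun M : Finset V => ∃ W, M ⊆ W ∧ Disc W G) = fun M : Finset V =>
      ¬ (M.Nonempty ∧ ¬ Disc M G ∧ ∀ v, v ∉ M → ∃ m ∈ M, s(v, m) ∈ G) := by
    funext M
    exact propext (cds_iff h0)
  rw [h1]
  exact hN

/-- For `H56V.HC`. -/
theorem hc_disc_of {k j : ℕ} {G : Finset (Sym2 V)} (hj : j ≤ k) (h0 : ∃ W, Disc W G)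
    (hN : ACk k fun M : Finset V => ∃ W, M ⊆ W ∧ Disc W G) :
    H56V.HC (Ch fun W : Finset V => Disc W G) j :=
  H33TF.hc_of_ack hj (ack_disc_of h0 hN)

end H30D
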