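import Pool.Agent.Lib.H30D.K
import Pool.Agent.Lib.H98TF.N

/-!
# H30D, file K2: the poset of the disconnected sets of a graph with few edges is acyclic in low degrees
-/

set_option autoImplicit false
set_option linter.unusedSectionVars false

namespace H30D

open Finset H98P H98Z H98M H63F H30F H70H

variable {V : Type*} [Fintype V] [DecidableEq V]

/-- THE LOW DEGREES OF THE POSET OF THE DISCONNECTED SETS. -/
theorem ack_disc {G : Finset (Sym2 V)} (hG : ∀ e ∈ G, ¬ e.IsDiag) (h2 : 2 ≤ Fintype.card V) {k : ℕ}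
    (hk : k + G.card + 4 ≤ 2 * Fintype.card V) : ACk k (Ch fun W : Finset V => Disc W G) :=
  ack_disc_of (exists_disc h2 (by omega)) (H98TF.ackN hG hk)

theorem hc_disc {G : Finset (Sym2 V)} (hG : ∀ e ∈ G, ¬ e.IsDiag) (h2 : 2 ≤ Fintype.card V) {k : ℕ}
    (hk : k + G.card + 4 ≤ 2 * Fintype.card V) : H56V.HC (Ch fun W : Finset V => Disc W G) k :=
  H33TF.hc_of_ack le_rfl (ack_disc hG h2 hk)

end H30D
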