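import Pool.Agent.Lib.H30D.C4
import Pool.Agent.Lib.H96TF.X

/-!
# H30D, file S: the step of a separated set, and the removal of the connected sets
-/

set_option autoImplicit false
set_option linter.unusedSectionVars false

namespace H30D

open Finset H98P H98Z H98M H63F H30F

/-- Upper fibres, from the part to the whole. -/
theorem ac_upper_rev {α : Type*} [PartialOrder α] [Fintype α] [DecidableEq α] {X P : α → Prop}
    (hXP : ∀ x, X x → P x) (hfib : ∀ p, P p → AC (Ch fun x => X x ∧ p ≤ x)) (hX : AC (Ch X)) :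
    AC (Ch P) := by
  refine ac_transfer (Ch P) (Ch X) ch_dn ch_dn (ch_empty P) (ch_empty X)
    (fun s => Ch fun x => X x ∧ ∃ m ∈ s, m ≤ x) (fun t T => T ⊆ t)
    (fun s => Ch fun x => P x ∧ ∃ m ∈ s, m ≤ x)
    ?_ ?_ ?_ ?_ ?_ ?_ ?_ ?_ ?_ ?_ ?_ ?_ ?_ hX
  · exact fun s t hst _ _ r hr => ch_mono (fun x hx => ⟨hx.1, hx.2.choose, hst hx.2.choose_spec.1,
      hx.2.choose_spec.2⟩) hr
  · exact fun s _ _ => ch_empty _
  · intro s hs hn
    obtain ⟨m, hm, h⟩ := ch_min hs hn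
    refine ac_congr (K := Ch fun x => X x ∧ m ≤ x) (fun U => ?_) (hfib m (hs.1 m hm))
    exact ⟨fun h1 => ch_mono (fun x hx => ⟨hx.1, m, hm, hx.2⟩) h1,
      fun h1 => ch_mono (fun x hx => ⟨hx.1, (h _ hx.2.choose_spec.1).trans hx.2.choose_spec.2⟩) h1⟩
  · exact fun s hs _ r hr => ch_mono (fun x hx => hx.1) hr
  · exact fun s t hst _ _ r hr => hr.trans hst
  · exact fun s _ _ => empty_subset _
  · exact fun s _ hn => ac_simplex hn
  · exact fun s hs _ r hr => ch_dn _ _ hr (ch_mono hXP hs)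
  · exact fun s t hst _ _ r hr => ch_mono (fun x hx => ⟨hx.1, hx.2.choose, hst hx.2.choose_spec.1,
      hx.2.choose_spec.2⟩) hr
  · exact fun s hs _ => ⟨fun x hx => ⟨hs.1 x hx, x, hx, le_rfl⟩, hs.2⟩
  · intro s hs hn
    obtain ⟨m, hm, h⟩ := ch_min hs hn
    exact ac_ch_cone (a := m) ⟨hs.1 m hm, m, hm, le_rfl⟩ fun x hx =>
      Or.inl ((h _ hx.2.choose_spec.1).trans hx.2.choose_spec.2)
  · exact fun s hs _ r hr => ch_mono (fun x hx => hx.1) hr
  · intro s t r hs hn h1 _ h3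
    exact ch_dn _ _ h3 (ch_mono (fun x hx => ⟨hXP x hx.1, hx.2⟩) h1)

/-- Lower fibres, from the part to the whole. -/
theorem ac_low_rev {α : Type*} [PartialOrder α] [Fintype α] [DecidableEq α] {X P : α → Prop}
    (hXP : ∀ x, X x → P x) (hfib : ∀ p, P p → AC (Ch fun x => X x ∧ x ≤ p)) (hX : AC (Ch X)) :
    AC (Ch P) := by
  refine ac_transfer (Ch P) (Ch X) ch_dn ch_dn (ch_empty P) (ch_empty X)
    (fun s => Ch fun x => X x ∧ ∃ m ∈ s, x ≤ m) (fun t T => T ⊆ t)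
    (fun s => Ch fun x => P x ∧ ∃ m ∈ s, x ≤ m)
    ?_ ?_ ?_ ?_ ?_ ?_ ?_ ?_ ?_ ?_ ?_ ?_ ?_ hX
  · exact fun s t hst _ _ r hr => ch_mono (fun x hx => ⟨hx.1, hx.2.choose, hst hx.2.choose_spec.1,
      hx.2.choose_spec.2⟩) hr
  · exact fun s _ _ => ch_empty _
  · intro s hs hn
    obtain ⟨m, hm, h⟩ := ch_max hs hn
    refine ac_congr (K := Ch fun x => X x ∧ x ≤ m) (fun U => ?_) (hfib m (hs.1 m hm))
    exact ⟨fun h1 => ch_mono (fun x hx => ⟨hx.1, m, hm, hx.2⟩) h1,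
      fun h1 => ch_mono (fun x hx => ⟨hx.1, hx.2.choose_spec.2.trans (h _ hx.2.choose_spec.1)⟩) h1⟩
  · exact fun s hs _ r hr => ch_mono (fun x hx => hx.1) hr
  · exact fun s t hst _ _ r hr => hr.trans hst
  · exact fun s _ _ => empty_subset _
  · exact fun s _ hn => ac_simplex hn
  · exact fun s hs _ r hr => ch_dn _ _ hr (ch_mono hXP hs)
  · exact fun s t hst _ _ r hr => ch_mono (fun x hx => ⟨hx.1, hx.2.choose, hst hx.2.choose_spec.1,
      hx.2.choose_spec.2⟩) hr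
  · exact fun s hs _ => ⟨fun x hx => ⟨hs.1 x hx, x, hx, le_rfl⟩, hs.2⟩
  · intro s hs hn
    obtain ⟨m, hm, h⟩ := ch_max hs hn
    exact ac_ch_cone (a := m) ⟨hs.1 m hm, m, hm, le_rfl⟩ fun x hx =>
      Or.inr (hx.2.choose_spec.2.trans (h _ hx.2.choose_spec.1))
  · exact fun s hs _ r hr => ch_mono (fun x hx => hx.1) hr
  · intro s t r hs hn h1 _ h3
    exact ch_dn _ _ h3 (ch_mono (fun x hx => ⟨hXP x hx.1, hx.2⟩) h1)

variable {V : Type*} [Fintype V] [DecidableEq V]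

/-- REMOVAL of the connected sets. -/
theorem remove {P : Finset V → Prop} {G : Finset (Sym2 V)}
    (hlow : ∀ M, P M → ¬ Disc M G → AC (Ch fun W : Finset V => P W ∧ W ⊂ M)) :
    ∀ (k : ℕ) (M : Finset V), M.card ≤ k → P M →
      AC (Ch fun W : Finset V => (P W ∧ Disc W G) ∧ W ≤ M) := by
  intro k
  induction k with
  | zero =>
    intro M hk hM
    have h0 : M = ∅ := card_eq_zero.1 (by omega)
    have h1 : ¬ Disc M G := by
      rintro ⟨C, D, ⟨c, hc⟩, -, -, h2, -⟩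
      rw [h0] at h2
      exact absurd (h2 ▸ mem_union_left D hc) (notMem_empty c)
    refine ac_congr (K := Ch fun W : Finset V => P W ∧ W ⊂ M) (fun s => ?_) (hlow M hM h1)
    subst h0
    constructor
    · exact ch_mono fun X hX => absurd hX.2 (by simp)
    · refine ch_mono fun X hX => ?_
      have h3 : X = ∅ := le_bot_iff.1 hX.2
      rw [h3] at hX
      exact absurd hX.1.2 h1
  | succ k ih =>
    intro M hk hM
    by_cases hd : Disc M G
    · exact ac_ch_cone (a := M) ⟨⟨hM, hd⟩, le_rfl⟩ fun x hx => Or.inr hx.2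
    · refine ac_congr (K := Ch fun W : Finset V => (P W ∧ Disc W G) ∧ W ⊂ M) (fun s => ?_) ?_
      · constructor
        · exact ch_mono fun X hX => ⟨hX.1, hX.2.subset⟩
        · refine ch_mono fun X hX => ⟨hX.1, Finset.ssubset_iff_subset_ne.2 ⟨hX.2, ?_⟩⟩
          rintro rfl
          exact hd hX.1.2
      · refine H96TF.ac_fib (Q := fun W : Finset V => P W ∧ W ⊂ M) ?_ ?_ (hlow M hM hd)
        · exact fun W hW => ⟨hW.1.1, hW.2⟩
        · rintro W ⟨h3, h4⟩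
          have h6 : W.card < M.card := card_lt_card h4
          refine ac_congr (fun t => ?_) (ih W (by omega) h3)
          constructor
          · exact ch_mono fun X hX => ⟨⟨hX.1, hX.2.trans_ssubset h4⟩, hX.2⟩
          · exact ch_mono fun X hX => ⟨hX.1.1, hX.2⟩

/-- Removal, at the top. -/
theorem remove_univ {P : Finset V → Prop} {G : Finset (Sym2 V)}
    (hlow : ∀ M, P M → ¬ Disc M G → AC (Ch fun W : Finset V => P W ∧ W ⊂ M)) (hV : P univ) :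
    AC (Ch fun W : Finset V => P W ∧ Disc W G) := by
  refine ac_congr (fun t => ?_) (remove hlow (univ : Finset V).card univ le_rfl hV)
  constructor
  · exact ch_mono fun X hX => hX.1
  · exact ch_mono fun X hX => ⟨hX, subset_univ X⟩

/-- THE STEP of a separated set `M`. -/
theorem step_i {P : Finset V → Prop} {M Cc Dd Z : Finset V}
    (hCD : Disjoint Cc Dd) (hCZ : Disjoint Cc Z) (hDZ : Disjoint Dd Z)
    (hM : M ⊆ Cc ∪ Dd ∪ Z)
    (hc : (M ∩ Cc).Nonempty) (hd : (M ∩ Dd).Nonempty) (hz : (M ∩ Z).Nonempty)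
    (h2 : ∀ W, W ⊆ M → Disjoint W Z → (W ∩ Cc).Nonempty → (W ∩ Dd).Nonempty → P W)
    (h3 : ∀ W, W ⊆ Z → ¬ P W)
    (h4 : ∀ W, W ⊆ M → W ⊆ Cc ∪ Z → P W → ∀ B, B ⊆ M ∩ Dd → P (W ∪ B))
    (h4' : ∀ W, W ⊆ M → W ⊆ Dd ∪ Z → P W → ∀ B, B ⊆ M ∩ Cc → P (W ∪ B))
    (ihC : P (M ∩ (Cc ∪ Z)) → AC (Ch fun W : Finset V => P W ∧ W ⊂ M ∩ (Cc ∪ Z)))
    (ihD : P (M ∩ (Dd ∪ Z)) → AC (Ch fun W : Finset V => P W ∧ W ⊂ M ∩ (Dd ∪ Z))) :
    AC (Ch fun W : Finset V => P W ∧ W ⊂ M) := by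
  -- the sets which meet both sides
  have hP1 : AC (Ch fun W : Finset V => (P W ∧ W ⊂ M) ∧ (W ∩ Cc).Nonempty ∧ (W ∩ Dd).Nonempty) := by
    have hin : ∀ W : Finset V, W ⊆ M → (W ∩ Cc).Nonempty → (W ∩ Dd).Nonempty →
        (P (W \ Z) ∧ W \ Z ⊂ M) ∧ (W \ Z ∩ Cc).Nonempty ∧ (W \ Z ∩ Dd).Nonempty := by
      intro W hW h5 h6
      obtain ⟨c, hc'⟩ := h5
      obtain ⟨d, hd'⟩ := h6
      rw [mem_inter] at hc' hd'
      have h7 : (W \ Z ∩ Cc).Nonempty :=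
        ⟨c, mem_inter.2 ⟨mem_sdiff.2 ⟨hc'.1, disjoint_left.1 hCZ hc'.2⟩, hc'.2⟩⟩
      have h8 : (W \ Z ∩ Dd).Nonempty :=
        ⟨d, mem_inter.2 ⟨mem_sdiff.2 ⟨hd'.1, disjoint_left.1 hDZ hd'.2⟩, hd'.2⟩⟩
      refine ⟨⟨h2 _ (sdiff_subset.trans hW) sdiff_disjoint h7 h8, ?_⟩, h7, h8⟩
      refine Finset.ssubset_iff_subset_ne.2 ⟨sdiff_subset.trans hW, ?_⟩
      intro h9
      obtain ⟨z, hz'⟩ := hz
      rw [mem_inter] at hz'
      rw [← h9] at hz'
      exact (mem_sdiff.1 hz'.1).2 hz'.2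
    refine ac_down (fun W => W \ Z) (M \ Z) (hin M Subset.rfl hc hd)
      (fun W hW => hin W hW.1.2.subset hW.2.1 hW.2.2) (fun W W' _ _ h => sdiff_subset_sdiff h Subset.rfl)
      (fun W _ => sdiff_subset) (fun W hW => sdiff_subset_sdiff hW.1.2.subset Subset.rfl)
  -- the upper fibres
  have hup : ∀ (A B : Finset V), Disjoint A B → Disjoint A Z → Disjoint B Z → M ⊆ A ∪ B ∪ Z →
      (M ∩ B).Nonempty →
      (∀ W, W ⊆ M → W ⊆ A ∪ Z → P W → ∀ T, T ⊆ M ∩ B → P (W ∪ T)) →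
      ∀ W, P W → W ⊂ M → W ≠ M ∩ (A ∪ Z) → ¬ (W ∩ B).Nonempty →
      AC (Ch fun X : Finset V => ((P X ∧ X ⊂ M) ∧ (X ∩ A).Nonempty ∧ (X ∩ B).Nonempty) ∧ W ≤ X) := by
    intro A B hAB hAZ hBZ hM' hB h5 W hPW hWM hne hWB
    have hWA : W ⊆ A ∪ Z := by
      intro w hw
      have h6 := hM' (hWM.subset hw)
      rw [mem_union, mem_union] at h6
      rcases h6 with (h6 | h6) | h6
      · exact mem_union_left _ h6
      · exact absurd ⟨w, mem_inter.2 ⟨hw, h6⟩⟩ hWB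
      · exact mem_union_right _ h6
    have hWA2 : (W ∩ A).Nonempty := by
      by_contra h6
      refine h3 W (fun w hw => ?_) hPW
      rcases mem_union.1 (hWA hw) with h7 | h7
      · exact absurd ⟨w, mem_inter.2 ⟨hw, h7⟩⟩ h6
      · exact h7
    have hin : ∀ X : Finset V, X ⊆ M → (X ∩ B).Nonempty →
        ((P (W ∪ X ∩ B) ∧ W ∪ X ∩ B ⊂ M) ∧ ((W ∪ X ∩ B) ∩ A).Nonempty ∧
          ((W ∪ X ∩ B) ∩ B).Nonempty) ∧ W ≤ W ∪ X ∩ B := by
      intro X hX h6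
      obtain ⟨b, hb⟩ := h6
      obtain ⟨a, ha⟩ := hWA2
      rw [mem_inter] at ha
      refine ⟨⟨⟨h5 W hWM.subset hWA hPW _ (inter_subset_inter_right hX), ?_⟩,
        ⟨a, mem_inter.2 ⟨mem_union_left _ ha.1, ha.2⟩⟩,
        ⟨b, mem_inter.2 ⟨mem_union_right _ hb, (mem_inter.1 hb).2⟩⟩⟩, subset_union_left⟩
      refine Finset.ssubset_iff_subset_ne.2 ⟨union_subset hWM.subset (inter_subset_left.trans hX), ?_⟩
      intro h7
      apply hne
      refine subset_antisymm (fun w hw => mem_inter.2 ⟨hWM.subset hw, hWA hw⟩) ?_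
      intro w hw
      rw [mem_inter] at hw
      have h8 : w ∈ W ∪ X ∩ B := h7 ▸ hw.1
      rcases mem_union.1 h8 with h9 | h9
      · exact h9
      · exfalso
        have h10 := (mem_inter.1 h9).2
        rcases mem_union.1 hw.2 with h11 | h11
        · exact disjoint_left.1 hAB h11 h10
        · exact disjoint_left.1 hBZ h10 h11
    refine ac_down (fun X => W ∪ X ∩ B) (W ∪ M ∩ B) (hin M Subset.rfl hB)
      (fun X hX => hin X hX.1.1.2.subset hX.1.2.2)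
      (fun X X' _ _ h => union_subset_union Subset.rfl (inter_subset_inter_right h))
      (fun X hX => union_subset hX.2 inter_subset_left)
      (fun X hX => union_subset_union Subset.rfl (inter_subset_inter_right hX.1.1.2.subset))
  -- all but the two sides of `M`
  have hP2 : AC (Ch fun W : Finset V => (P W ∧ W ⊂ M) ∧ W ≠ M ∩ (Cc ∪ Z) ∧ W ≠ M ∩ (Dd ∪ Z)) := by
    refine ac_upper_rev
      (X := fun W : Finset V => (P W ∧ W ⊂ M) ∧ (W ∩ Cc).Nonempty ∧ (W ∩ Dd).Nonempty) ?_ ?_ hP1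
    · rintro W ⟨h5, h6, h7⟩
      refine ⟨h5, ?_, ?_⟩
      · rintro rfl
        obtain ⟨w, hw⟩ := h7
        rw [mem_inter, mem_inter, mem_union] at hw
        rcases hw.1.2 with h8 | h8
        · exact disjoint_left.1 hCD h8 hw.2
        · exact disjoint_left.1 hDZ hw.2 h8
      · rintro rfl
        obtain ⟨w, hw⟩ := h6
        rw [mem_inter, mem_inter, mem_union] at hw
        rcases hw.1.2 with h8 | h8
        · exact disjoint_left.1 hCD hw.2 h8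
        · exact disjoint_left.1 hCZ hw.2 h8
    · rintro W ⟨⟨h5, h6⟩, h7, h8⟩
      by_cases h9 : (W ∩ Dd).Nonempty
      · by_cases h10 : (W ∩ Cc).Nonempty
        · exact ac_ch_cone (a := W) ⟨⟨⟨h5, h6⟩, h10, h9⟩, le_rfl⟩ fun x hx => Or.inl hx.2
        · refine ac_congr (fun t => ?_) (hup Dd Cc hCD.symm hDZ hCZ
            (by rwa [union_comm Dd Cc]) hc h4' W h5 h6 h8 h10)
          constructor
          · exact ch_mono fun X hX => ⟨⟨hX.1.1, hX.1.2.2, hX.1.2.1⟩, hX.2⟩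
          · exact ch_mono fun X hX => ⟨⟨hX.1.1, hX.1.2.2, hX.1.2.1⟩, hX.2⟩
      · exact hup Cc Dd hCD hCZ hDZ hM hd h4 W h5 h6 h7 h9
  -- the two sides of `M`
  refine ac_low_rev
    (X := fun W : Finset V => (P W ∧ W ⊂ M) ∧ W ≠ M ∩ (Cc ∪ Z) ∧ W ≠ M ∩ (Dd ∪ Z))
    (fun W hW => hW.1) ?_ hP2
  rintro W ⟨h5, h6⟩
  obtain ⟨c, hc'⟩ := hc
  obtain ⟨d, hd'⟩ := hd
  rw [mem_inter] at hc' hd'
  have hcn : c ∉ M ∩ (Dd ∪ Z) := by
    rw [mem_inter, mem_union]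
    rintro ⟨-, h7 | h7⟩
    · exact disjoint_left.1 hCD hc'.2 h7
    · exact disjoint_left.1 hCZ hc'.2 h7
  have hdn : d ∉ M ∩ (Cc ∪ Z) := by
    rw [mem_inter, mem_union]
    rintro ⟨-, h7 | h7⟩
    · exact disjoint_left.1 hCD h7 hd'.2
    · exact disjoint_left.1 hDZ hd'.2 h7
  have hcC : c ∈ M ∩ (Cc ∪ Z) := mem_inter.2 ⟨hc'.1, mem_union_left _ hc'.2⟩
  have hdD : d ∈ M ∩ (Dd ∪ Z) := mem_inter.2 ⟨hd'.1, mem_union_left _ hd'.2⟩
  by_cases h7 : W = M ∩ (Cc ∪ Z)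
  · subst h7
    refine ac_congr (fun t => ?_) (ihC h5)
    constructor
    · exact ch_mono fun X hX => ⟨⟨⟨hX.1, hX.2.trans h6⟩, hX.2.ne,
        fun h8 => hdn (hX.2.subset (h8 ▸ hdD))⟩, hX.2.subset⟩
    · exact ch_mono fun X hX => ⟨hX.1.1.1, Finset.ssubset_iff_subset_ne.2 ⟨hX.2, hX.1.2.1⟩⟩
  · by_cases h8 : W = M ∩ (Dd ∪ Z)
    · subst h8
      refine ac_congr (fun t => ?_) (ihD h5)
      constructor
      · exact ch_mono fun X hX => ⟨⟨⟨hX.1, hX.2.trans h6⟩,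
          fun h8 => hcn (hX.2.subset (h8 ▸ hcC)), hX.2.ne⟩, hX.2.subset⟩
      · exact ch_mono fun X hX => ⟨hX.1.1.1, Finset.ssubset_iff_subset_ne.2 ⟨hX.2, hX.1.2.2⟩⟩
    · exact ac_ch_cone (a := W) ⟨⟨⟨h5, h6⟩, h7, h8⟩, le_rfl⟩ fun x hx => Or.inr hx.2

end H30D
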