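import Pool.Agent.Lib.H12Q.L1
import Pool.Agent.Lib.H47D.Cut

/-!
# H30D, file V: virtually connected sets and one side of a 2-cut
-/

set_option autoImplicit false
set_option linter.unusedSectionVars false

namespace H30D

open Finset H98M H47D

variable {V : Type*} [Fintype V] [DecidableEq V]

/-- A connected part `B` of the complement of `M` whose neighbours are exactly `a` and `b`. -/
def Link (G : Finset (Sym2 V)) (M : Finset V) (a b : V) : Prop :=
  ∃ B : Finset V, B.Nonempty ∧ Disjoint B M ∧ ¬ Disc B G ∧ a ∉ B ∧ b ∉ B ∧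
    (∃ u ∈ B, s(u, a) ∈ G) ∧ (∃ u ∈ B, s(u, b) ∈ G) ∧
    (∀ u ∈ B, ∀ w, w ∉ B → s(u, w) ∈ G → w = a ∨ w = b)

/-- Connected with edges and links. -/
def VConn (G : Finset (Sym2 V)) (M : Finset V) : Prop :=
  ∀ C D : Finset V, C ∪ D = M → Disjoint C D → C.Nonempty → D.Nonempty →
    ∃ a ∈ C, ∃ b ∈ D, s(a, b) ∈ G ∨ Link G M a b

variable {G : Finset (Sym2 V)} {x y : V} {C D M : Finset V}

theorem Link.symm {a b : V} (h : Link G M a b) : Link G M b a := by
  obtain ⟨B, h1, h2, h3, h4, h5, h6, h7, h8⟩ := h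
  exact ⟨B, h1, h2, h3, h5, h4, h7, h6, fun u hu w hw h => (h8 u hu w hw h).symm⟩

theorem Link.anti {N : Finset V} (hN : N ⊆ M) {a b : V} (h : Link G M a b) : Link G N a b := by
  obtain ⟨B, h1, h2, h3⟩ := h
  exact ⟨B, h1, disjoint_of_subset_right hN h2, h3⟩

theorem vconn_of_conn (h : ¬ Disc M G) : VConn G M := by
  intro C D hu hd hC hD
  by_contra hno
  push Not at hno
  exact h ⟨C, D, hC, hD, hd, hu, fun a ha b hb => (hno a ha b hb).1⟩

/-- The link of the two vertices of a 2-cut. -/
theorem link_cut (hcut : ∀ z, ¬ Disc (univ.erase z) G) (h : Split G x y C D) {N : Finset V}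
    (hN : Disjoint D N) : Link G N x y := by
  obtain ⟨w, hw⟩ := h.hD
  obtain ⟨B, hBD, hwB, hB, hno⟩ := H12Q.piece G D hw
  have hnb : ∀ u ∈ B, ∀ w, w ∉ B → s(u, w) ∈ G → w = x ∨ w = y := by
    intro u hu v hv huv
    rcases h.swap.nb (hBD hu) huv with h1 | h1 | h1
    · exact Or.inl h1
    · exact Or.inr h1
    · exact absurd huv (hno u hu v (mem_sdiff.2 ⟨h1, hv⟩))
  have hxB : x ∉ B := fun h1 => h.xD (hBD h1)
  have hyB : y ∉ B := fun h1 => h.yD (hBD h1)
  refine ⟨B, ⟨w, hwB⟩, disjoint_of_subset_left hBD hN, hB, hxB, hyB, ?_, ?_, hnb⟩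
  · by_contra hcon
    push Not at hcon
    refine closed_false hcut (z := y) (w := x) ⟨w, hwB⟩ hyB hxB h.ne ?_
    intro a ha b hb hby hab
    rcases hnb a ha b hb hab with h1 | h1
    · exact hcon a ha (h1 ▸ hab)
    · exact hby h1
  · by_contra hcon
    push Not at hcon
    refine closed_false hcut (z := x) (w := y) ⟨w, hwB⟩ hxB hyB h.ne.symm ?_
    intro a ha b hb hbx hab
    rcases hnb a ha b hb hab with h1 | h1
    · exact hbx h1
    · exact hcon a ha (h1 ▸ hab)

/-- The case that the pair lies in one part. -/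
theorem vconn_aux (hcut : ∀ z, ¬ Disc (univ.erase z) G) (h : Split G x y C D)
    (hV : VConn G M) {C1 D1 : Finset V} (hun : C1 ∪ D1 = M ∩ (C ∪ {x, y}))
    (hdis : Disjoint C1 D1) (hD1 : D1.Nonempty) (hx : x ∈ C1) (hy : y ∈ C1 ∨ y ∉ M) :
    ∃ a ∈ C1, ∃ b ∈ D1, s(a, b) ∈ G ∨ Link G (M ∩ (C ∪ {x, y})) a b := by
  have hC1 : C1 ⊆ M ∩ (C ∪ {x, y}) := hun ▸ subset_union_left
  have hD1' : D1 ⊆ M ∩ (C ∪ {x, y}) := hun ▸ subset_union_right
  have hxM : x ∈ M := (mem_inter.1 (hC1 hx)).1
  have hDC : ∀ b ∈ D1, b ∈ C := by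
    intro b hb
    have h1 := mem_inter.1 (hD1' hb)
    rcases mem_union.1 h1.2 with h2 | h2
    · exact h2
    · rw [mem_insert, mem_singleton] at h2
      rcases h2 with h2 | h2
      · exact absurd (h2 ▸ hb) (disjoint_left.1 hdis hx)
      · rcases hy with h3 | h3
        · exact absurd (h2 ▸ hb) (disjoint_left.1 hdis h3)
        · exact absurd (h2 ▸ h1.1) h3
  have hu1 : (C1 ∪ M ∩ D) ∪ D1 = M := by
    ext w
    simp only [mem_union]
    constructor
    · rintro ((h1 | h1) | h1)
      · exact (mem_inter.1 (hC1 h1)).1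
      · exact (mem_inter.1 h1).1
      · exact (mem_inter.1 (hD1' h1)).1
    · intro hw
      by_cases hwD : w ∈ D
      · exact Or.inl (Or.inr (mem_inter.2 ⟨hw, hwD⟩))
      · have h1 : w ∈ C1 ∪ D1 := by
          rw [hun, mem_inter, mem_union, mem_insert, mem_singleton]
          refine ⟨hw, ?_⟩
          rcases h.cover w with h2 | h2 | h2 | h2
          · exact Or.inr (Or.inl h2)
          · exact Or.inr (Or.inr h2)
          · exact Or.inl h2
          · exact absurd h2 hwD
        rcases mem_union.1 h1 with h2 | h2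
        · exact Or.inl (Or.inl h2)
        · exact Or.inr h2
  have hd1 : Disjoint (C1 ∪ M ∩ D) D1 := by
    rw [disjoint_union_left]
    refine ⟨hdis, ?_⟩
    rw [disjoint_left]
    intro w hw hw'
    exact disjoint_left.1 h.dis (hDC w hw') (mem_inter.1 hw).2
  obtain ⟨a, ha, b, hb, hab⟩ := hV (C1 ∪ M ∩ D) D1 hu1 hd1 ⟨x, mem_union_left _ hx⟩ hD1
  by_cases haC : a ∈ C1
  · refine ⟨a, haC, b, hb, ?_⟩
    rcases hab with h1 | h1
    · exact Or.inl h1
    · exact Or.inr (h1.anti inter_subset_left)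
  · have haD : a ∈ D := by
      rcases mem_union.1 ha with h1 | h1
      · exact absurd h1 haC
      · exact (mem_inter.1 h1).2
    rcases hab with h1 | ⟨B, hB0, hBM, hB, haB, hbB, ⟨u, hu, hua⟩, ⟨v, hv, hvb⟩, hnb⟩
    · exact absurd (by rw [Sym2.eq_swap]; exact h1) (h.no b (hDC b hb) a haD)
    · have hxB : x ∉ B := fun h1 => disjoint_left.1 hBM h1 hxM
      have hyB : y ∈ B := by
        by_contra hyB
        have hBU : B ⊆ (univ.erase x).erase y := by
          intro w hw
          exact mem_erase.2 ⟨fun h1 => hyB (h1 ▸ hw), mem_erase.2 ⟨fun h1 => hxB (h1 ▸ hw), mem_univ w⟩⟩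
        rcases H12Q.oneside hB h.dis h.un h.no hBU with h1 | h1
        · exact h.no u (h1 hu) a haD hua
        · exact h.no b (hDC b hb) v (h1 hv) (by rw [Sym2.eq_swap]; exact hvb)
      refine ⟨x, hx, b, hb, Or.inr ⟨B ∪ D, hB0.mono subset_union_left, ?_, ?_, ?_, ?_, ?_,
        ⟨v, mem_union_left _ hv, hvb⟩, ?_⟩⟩
      · rw [disjoint_union_left]
        refine ⟨disjoint_of_subset_right inter_subset_left hBM, ?_⟩
        rw [disjoint_left]
        intro w hw hw'
        rcases mem_union.1 (mem_inter.1 hw').2 with h1 | h1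
        · exact disjoint_left.1 h.dis h1 hw
        · rw [mem_insert, mem_singleton] at h1
          rcases h1 with h1 | h1
          · exact h.xD (h1 ▸ hw)
          · exact h.yD (h1 ▸ hw)
      · have key : ∀ P1 P2 : Finset V, P2.Nonempty → Disjoint P1 P2 → P1 ∪ P2 = B ∪ D →
            (∀ p ∈ P1, ∀ q ∈ P2, s(p, q) ∉ G) → ¬ B ⊆ P1 := by
          intro P1 P2 h2 h3 h4 h5 h6
          have h7 : ∀ q ∈ P2, q ∈ D := by
            intro q hq
            have h8 : q ∈ B ∪ D := h4 ▸ mem_union_right _ hq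
            rcases mem_union.1 h8 with h9 | h9
            · exact absurd hq (disjoint_left.1 h3 (h6 h9))
            · exact h9
          refine closed_false hcut (z := x) (w := y) h2 (fun h8 => h.xD (h7 x h8))
            (fun h8 => h.yD (h7 y h8)) h.ne.symm ?_
          intro q hq w hw hwx hqw
          rcases h.swap.nb (h7 q hq) hqw with h8 | h8 | h8
          · exact hwx h8
          · exact h5 y (h6 hyB) q hq (by rw [Sym2.eq_swap, ← h8]; exact hqw)
          · have h9 : w ∈ P1 ∪ P2 := h4 ▸ mem_union_right _ h8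
            rcases mem_union.1 h9 with h10 | h10
            · exact h5 w h10 q hq (by rw [Sym2.eq_swap]; exact hqw)
            · exact hw h10
        rintro ⟨P1, P2, h1, h2, h3, h4, h5⟩
        have hBU : B ⊆ B ∪ D := subset_union_left
        rcases H12Q.oneside hB h3 h4 h5 hBU with h6 | h6
        · exact key P1 P2 h2 h3 h4 h5 h6
        · refine key P2 P1 h1 h3.symm (by rw [union_comm]; exact h4) (fun p hp q hq h7 => ?_) h6
          rw [Sym2.eq_swap] at h7
          exact h5 q hq p hp h7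
      · rw [mem_union]
        rintro (h1 | h1)
        · exact hxB h1
        · exact h.xD h1
      · rw [mem_union]
        rintro (h1 | h1)
        · exact hbB h1
        · exact disjoint_left.1 h.dis (hDC b hb) h1
      · by_contra hcon
        push Not at hcon
        refine closed_false hcut (z := y) (w := x) h.hD h.yD h.xD h.ne ?_
        intro c hc e he hey hce
        rcases h.swap.nb hc hce with h1 | h1 | h1
        · exact hcon c (mem_union_right _ hc) (h1 ▸ hce)
        · exact hey h1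
        · exact he h1
      · intro p hp w hw hpw
        rw [mem_union, not_or] at hw
        rcases mem_union.1 hp with h1 | h1
        · rcases hnb p h1 w hw.1 hpw with h2 | h2
          · exact absurd (h2 ▸ haD) hw.2
          · exact Or.inr h2
        · rcases h.swap.nb h1 hpw with h2 | h2 | h2
          · exact Or.inl h2
          · exact absurd (h2 ▸ hyB) hw.1
          · exact absurd h2 hw.2

/-- One side of a virtually connected set is virtually connected. -/
theorem vconn_side (hcut : ∀ z, ¬ Disc (univ.erase z) G) (h : Split G x y C D)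
    (hz : x ∈ M ∨ y ∈ M) (hV : VConn G M) : VConn G (M ∩ (C ∪ {x, y})) := by
  have hflip : (C ∪ {x, y} : Finset V) = C ∪ {y, x} := by rw [pair_comm]
  have hDN : Disjoint D (M ∩ (C ∪ {x, y})) := by
    rw [disjoint_left]
    intro w hw hw'
    rcases mem_union.1 (mem_inter.1 hw').2 with h1 | h1
    · exact disjoint_left.1 h.dis h1 hw
    · rw [mem_insert, mem_singleton] at h1
      rcases h1 with h1 | h1
      · exact h.xD (h1 ▸ hw)
      · exact h.yD (h1 ▸ hw)
  -- the case with a fixed place of `x`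
  have key : ∀ (x y : V) (h : Split G x y C D), x ∈ M → ∀ C1 D1 : Finset V,
      C1 ∪ D1 = M ∩ (C ∪ {x, y}) → Disjoint C1 D1 → D1.Nonempty →
      Disjoint D (M ∩ (C ∪ {x, y})) → x ∈ C1 →
      ∃ a ∈ C1, ∃ b ∈ D1, s(a, b) ∈ G ∨ Link G (M ∩ (C ∪ {x, y})) a b := by
    intro x y h hxM C1 D1 hun hdis hD1 hDN hx
    by_cases hyM : y ∈ M
    · have hy : y ∈ C1 ∪ D1 := by
        rw [hun]
        exact mem_inter.2 ⟨hyM, mem_union_right _ (mem_insert_of_mem (mem_singleton_self y))⟩
      rcases mem_union.1 hy with h1 | h1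
      · exact vconn_aux hcut h hV hun hdis hD1 hx (Or.inl h1)
      · exact ⟨x, hx, y, h1, Or.inr (link_cut hcut h hDN)⟩
    · exact vconn_aux hcut h hV hun hdis hD1 hx (Or.inr hyM)
  have key2 : ∀ (x y : V) (h : Split G x y C D), x ∈ M → Disjoint D (M ∩ (C ∪ {x, y})) →
      VConn G (M ∩ (C ∪ {x, y})) := by
    intro x y h hxM hDN C1 D1 hun hdis hC1 hD1
    have hx : x ∈ C1 ∪ D1 := by
      rw [hun]
      exact mem_inter.2 ⟨hxM, mem_union_right _ (mem_insert_self _ _)⟩
    rcases mem_union.1 hx with h1 | h1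
    · exact key x y h hxM C1 D1 hun hdis hD1 hDN h1
    · obtain ⟨a, ha, b, hb, hab⟩ := key x y h hxM D1 C1 (by rw [union_comm]; exact hun) hdis.symm
        hC1 hDN h1
      refine ⟨b, hb, a, ha, ?_⟩
      rcases hab with h2 | h2
      · left
        rw [Sym2.eq_swap]
        exact h2
      · exact Or.inr h2.symm
  rcases hz with h1 | h1
  · exact key2 x y h h1 hDN
  · rw [hflip]
    exact key2 y x h.flip h1 (by rw [← hflip]; exact hDN)

end H30D
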