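import Pool.Agent.Lib.LD.Def

/-!
# H30D, file X6: separated sets and one side of an uncrossed separation
-/

set_option autoImplicit false
set_option linter.unusedSectionVars false

namespace H30D

open Finset H98M LD

variable {V : Type*} [DecidableEq V]

theorem sdiff_eq {E : Finset (Sym2 V)} {Y : Finset V} {x y : V} {P Q : Finset V}
    (h : Sep E Y x y P Q) : Y \ Q = insert x (insert y P) := by
  ext v
  rw [← h.eq]
  simp only [mem_sdiff, mem_insert, mem_union]
  constructor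
  · rintro ⟨h1 | h1 | h1 | h1, h2⟩
    · exact Or.inl h1
    · exact Or.inr (Or.inl h1)
    · exact Or.inr (Or.inr h1)
    · exact absurd h1 h2
  · rintro (h1 | h1 | h1)
    · exact ⟨Or.inl h1, h1 ▸ h.xQ⟩
    · exact ⟨Or.inr (Or.inl h1), h1 ▸ h.yQ⟩
    · exact ⟨Or.inr (Or.inr (Or.inl h1)), disjoint_left.1 h.dis h1⟩

theorem Unc.sym {E : Finset (Sym2 V)} {Y : Finset V} {x y : V} (h : Unc E Y x y) : Unc E Y y x :=
  fun u v P Q hs h1 => h u v Q P hs.symm ⟨h1.2, h1.1⟩

/-- One of the sides of a separation misses both vertices of an uncrossed pair. -/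
theorem miss {E : Finset (Sym2 V)} {Y : Finset V} {x y : V} (hU : Unc E Y x y) {u v : V}
    {C D : Finset V} (h : Sep E Y u v C D) : (x ∉ C ∧ y ∉ C) ∨ (x ∉ D ∧ y ∉ D) := by
  by_cases h1 : x ∈ C
  · right
    exact ⟨disjoint_left.1 h.dis h1, fun h2 => hU u v C D h ⟨h1, h2⟩⟩
  · by_cases h2 : y ∈ C
    · right
      exact ⟨fun h3 => Unc.sym hU u v C D h ⟨h2, h3⟩, disjoint_left.1 h.dis h2⟩
    · exact Or.inl ⟨h1, h2⟩

/-- A separated set is disconnected, also with the edge of an uncrossed pair. -/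
theorem x2_conn {E : Finset (Sym2 V)} {Y W : Finset V} {x y : V} (hU : Unc E Y x y)
    (hW : W ⊆ Y) (h : X2 E Y W) : Disc W (insert s(x, y) E) := by
  obtain ⟨u, v, C, D, hs, hu, hv, ⟨a, haW, haC⟩, b, hbW, hbD⟩ := h
  refine ⟨W ∩ C, W ∩ D, ⟨a, mem_inter.2 ⟨haW, haC⟩⟩, ⟨b, mem_inter.2 ⟨hbW, hbD⟩⟩,
    disjoint_of_subset_left inter_subset_right
      (disjoint_of_subset_right inter_subset_right hs.dis), ?_, ?_⟩
  · rw [← inter_union_distrib_left]
    refine inter_eq_left.2 fun w hw => ?_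
    have h1 := hW hw
    rw [← hs.eq, mem_insert, mem_insert] at h1
    rcases h1 with h1 | h1 | h1
    · exact absurd (h1 ▸ hw) hu
    · exact absurd (h1 ▸ hw) hv
    · exact h1
  · intro c hc d hd h1
    rw [mem_inter] at hc hd
    rcases mem_insert.1 h1 with h2 | h2
    · rw [Sym2.eq_iff] at h2
      rcases h2 with ⟨h2, h3⟩ | ⟨h2, h3⟩
      · exact hU u v C D hs ⟨h2 ▸ hc.2, h3 ▸ hd.2⟩
      · exact Unc.sym hU u v C D hs ⟨h2 ▸ hc.2, h3 ▸ hd.2⟩
    · exact hs.noE c hc.2 d hd.2 h2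

theorem disc_of_subset {E E' : Finset (Sym2 V)} {W : Finset V} (hE : E ⊆ E') (h : Disc W E') :
    Disc W E := by
  obtain ⟨C, D, h1, h2, h3, h4, h5⟩ := h
  exact ⟨C, D, h1, h2, h3, h4, fun x hx y hy hxy => h5 x hx y hy (hE hxy)⟩

/-- A separated set is disconnected in the reduced graph. -/
theorem x2_conn_red {E : Finset (Sym2 V)} {Y W : Finset V} {x y : V} {Q : Finset V}
    (hU : Unc E Y x y) (hW : W ⊆ Y) (h : X2 E Y W) : Disc W (red E Y x y Q) :=
  disc_of_subset (insert_subset_insert _ inter_subset_left) (x2_conn hU hW h)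

theorem x2_disc {E : Finset (Sym2 V)} {Y W : Finset V} (hW : W ⊆ Y) (h : X2 E Y W) : Disc W E := by
  obtain ⟨u, v, C, D, hs, hu, hv, ⟨a, haW, haC⟩, b, hbW, hbD⟩ := h
  refine ⟨W ∩ C, W ∩ D, ⟨a, mem_inter.2 ⟨haW, haC⟩⟩, ⟨b, mem_inter.2 ⟨hbW, hbD⟩⟩,
    disjoint_of_subset_left inter_subset_right
      (disjoint_of_subset_right inter_subset_right hs.dis), ?_, ?_⟩
  · rw [← inter_union_distrib_left]
    refine inter_eq_left.2 fun w hw => ?_
    have h1 := hW hw
    rw [← hs.eq, mem_insert, mem_insert] at h1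
    rcases h1 with h1 | h1 | h1
    · exact absurd (h1 ▸ hw) hu
    · exact absurd (h1 ▸ hw) hv
    · exact h1
  · intro c hc d hd h1
    rw [mem_inter] at hc hd
    exact hs.noE c hc.2 d hd.2 h1

/-- No subset of an uncrossed pair is separated. -/
theorem x2_pair {E : Finset (Sym2 V)} {Y W : Finset V} {x y : V} (hU : Unc E Y x y)
    (hW : W ⊆ {x, y}) : ¬ X2 E Y W := by
  rintro ⟨u, v, C, D, hs, hu, hv, ⟨a, haW, haC⟩, b, hbW, hbD⟩
  have h1 := hW haW
  have h2 := hW hbW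
  rw [mem_insert, mem_singleton] at h1 h2
  rcases h1 with h1 | h1 <;> rcases h2 with h2 | h2
  · exact disjoint_left.1 hs.dis haC (by rw [h1, ← h2]; exact hbD)
  · exact hU u v C D hs ⟨h1 ▸ haC, h2 ▸ hbD⟩
  · exact Unc.sym hU u v C D hs ⟨h1 ▸ haC, h2 ▸ hbD⟩
  · exact disjoint_left.1 hs.dis haC (by rw [h1, ← h2]; exact hbD)

/-- A set which misses the pair and meets both sides is separated. -/
theorem x2_two {E : Finset (Sym2 V)} {Y W : Finset V} {x y : V} {P Q : Finset V}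
    (hs : Sep E Y x y P Q) (hx : x ∉ W) (hy : y ∉ W) (hP : (W ∩ P).Nonempty)
    (hQ : (W ∩ Q).Nonempty) : X2 E Y W := by
  obtain ⟨a, ha⟩ := hP
  obtain ⟨b, hb⟩ := hQ
  rw [mem_inter] at ha hb
  exact ⟨x, y, P, Q, hs, hx, hy, ⟨a, ha.1, ha.2⟩, b, hb.1, hb.2⟩

/-- What is needed about the other separations: a side which misses an uncrossed pair lies in one
side of it. (`SideF E Y x y P Q` is the statement (F1) for the separation `P, Q` at `{x, y}`.) -/
def SideF (E : Finset (Sym2 V)) (Y : Finset V) (x y : V) (P Q : Finset V) : Prop :=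
  ∀ u v C D, Sep E Y u v C D → x ∉ C → y ∉ C → ¬ (({u, v} : Finset V) = {x, y}) →
    (C ⊆ P ∧ u ∈ insert x (insert y P) ∧ v ∈ insert x (insert y P)) ∨
    (C ⊆ Q ∧ u ∈ insert x (insert y Q) ∧ v ∈ insert x (insert y Q))

/-- A separation which separates a subset of one side of an uncrossed separation: its vertices lie in
this side and one of its sides too. -/
theorem sep_side {E : Finset (Sym2 V)} {Y : Finset V} {x y : V} {P Q : Finset V}
    (hU : Unc E Y x y) (hs : Sep E Y x y P Q) (hF : SideF E Y x y P Q) {W : Finset V}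
    (hW : W ⊆ Y \ Q) {u v : V} {C D : Finset V} (h : Sep E Y u v C D)
    (hu : u ∉ W) (hv : v ∉ W) (hC : (W ∩ C).Nonempty) (hD : (W ∩ D).Nonempty) :
    ∃ C' D' : Finset V, Sep E Y u v C' D' ∧ (W ∩ C').Nonempty ∧ (W ∩ D').Nonempty ∧ x ∉ C' ∧
      y ∉ C' ∧ (C' ⊆ P ∨ ({u, v} : Finset V) = {x, y}) ∧
      u ∈ insert x (insert y P) ∧ v ∈ insert x (insert y P) := by
  have key : ∀ C D : Finset V, Sep E Y u v C D → (W ∩ C).Nonempty → (W ∩ D).Nonempty →
      x ∉ C → y ∉ C → (C ⊆ P ∨ ({u, v} : Finset V) = {x, y}) ∧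
      u ∈ insert x (insert y P) ∧ v ∈ insert x (insert y P) := by
    intro C D h hC hD hx hy
    by_cases h1 : ({u, v} : Finset V) = {x, y}
    · have hu' : u ∈ ({x, y} : Finset V) := h1 ▸ mem_insert_self u {v}
      have hv' : v ∈ ({x, y} : Finset V) := h1 ▸ mem_insert_of_mem (mem_singleton_self v)
      rw [mem_insert, mem_singleton] at hu' hv'
      refine ⟨Or.inr h1, ?_, ?_⟩
      · rcases hu' with h2 | h2
        · exact h2 ▸ mem_insert_self _ _
        · exact h2 ▸ mem_insert_of_mem (mem_insert_self _ _)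
      · rcases hv' with h2 | h2
        · exact h2 ▸ mem_insert_self _ _
        · exact h2 ▸ mem_insert_of_mem (mem_insert_self _ _)
    · rcases hF u v C D h hx hy h1 with ⟨h2, h3, h4⟩ | ⟨h2, h3, h4⟩
      · exact ⟨Or.inl h2, h3, h4⟩
      · exfalso
        obtain ⟨w, hw⟩ := hC
        rw [mem_inter] at hw
        exact (mem_sdiff.1 (hW hw.1)).2 (h2 hw.2)
  rcases miss hU h with ⟨h1, h2⟩ | ⟨h1, h2⟩
  · exact ⟨C, D, h, hC, hD, h1, h2, key C D h hC hD h1 h2⟩
  · exact ⟨D, C, h.symm, hD, hC, h1, h2, key D C h.symm hD hC h1 h2⟩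

/-- (h4) A separated subset of one side stays separated when something of the other side is added. -/
theorem x2_add {E : Finset (Sym2 V)} {Y : Finset V} {x y : V} {P Q : Finset V}
    (hU : Unc E Y x y) (hs : Sep E Y x y P Q) (hF : SideF E Y x y P Q) {W B : Finset V}
    (hW : W ⊆ Y \ Q) (hB : B ⊆ Q) (h : X2 E Y W) : X2 E Y (W ∪ B) := by
  obtain ⟨u, v, C, D, h, hu, hv, ⟨a, haW, haC⟩, b, hbW, hbD⟩ := h
  obtain ⟨C', D', h', ⟨c, hc⟩, ⟨d, hd⟩, -, -, -, h5, h6⟩ := sep_side hU hs hF hW h hu hv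
    ⟨a, mem_inter.2 ⟨haW, haC⟩⟩ ⟨b, mem_inter.2 ⟨hbW, hbD⟩⟩
  rw [mem_inter] at hc hd
  rw [← sdiff_eq hs, mem_sdiff] at h5 h6
  refine ⟨u, v, C', D', h', ?_, ?_, ⟨c, mem_union_left _ hc.1, hc.2⟩, d, mem_union_left _ hd.1, hd.2⟩
  · rw [mem_union]
    rintro (h7 | h7)
    · exact hu h7
    · exact h5.2 (hB h7)
  · rw [mem_union]
    rintro (h7 | h7)
    · exact hv h7
    · exact h6.2 (hB h7)

/-- (X6) Separated subsets of one side. -/
theorem x2_side {E : Finset (Sym2 V)} {Y : Finset V} {x y : V} {P Q : Finset V}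
    (hU : Unc E Y x y) (hs : Sep E Y x y P Q) (hF : SideF E Y x y P Q) {W : Finset V}
    (hW : W ⊆ Y \ Q) : X2 E Y W ↔ X2 (red E Y x y Q) (Y \ Q) W := by
  constructor
  · rintro ⟨u, v, C, D, h, hu, hv, ⟨a, haW, haC⟩, b, hbW, hbD⟩
    obtain ⟨C', D', h', ⟨c, hc⟩, ⟨d, hd⟩, hx, hy, h4, h5, h6⟩ := sep_side hU hs hF hW h hu hv
      ⟨a, mem_inter.2 ⟨haW, haC⟩⟩ ⟨b, mem_inter.2 ⟨hbW, hbD⟩⟩
    rw [mem_inter] at hc hd
    rw [← sdiff_eq hs] at h5 h6
    refine ⟨u, v, C' ∩ (Y \ Q), D' ∩ (Y \ Q), ⟨h'.ne, ?_, ?_, ?_, ?_, ⟨c, mem_inter.2 ⟨hc.2, hW hc.1⟩⟩,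
      ⟨d, mem_inter.2 ⟨hd.2, hW hd.1⟩⟩, ?_, ?_, ?_⟩, hu, hv, ⟨c, hc.1, mem_inter.2 ⟨hc.2, hW hc.1⟩⟩,
      d, hd.1, mem_inter.2 ⟨hd.2, hW hd.1⟩⟩
    · exact fun h => h'.xP (mem_inter.1 h).1
    · exact fun h => h'.xQ (mem_inter.1 h).1
    · exact fun h => h'.yP (mem_inter.1 h).1
    · exact fun h => h'.yQ (mem_inter.1 h).1
    · exact disjoint_of_subset_left inter_subset_left
        (disjoint_of_subset_right inter_subset_left h'.dis)
    · ext w
      simp only [mem_insert, mem_union, mem_inter]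
      constructor
      · rintro (h7 | h7 | h7 | h7)
        · exact h7 ▸ h5
        · exact h7 ▸ h6
        · exact h7.2
        · exact h7.2
      · intro h7
        have h8 := (mem_sdiff.1 h7).1
        rw [← h'.eq, mem_insert, mem_insert, mem_union] at h8
        rcases h8 with h8 | h8 | h8 | h8
        · exact Or.inl h8
        · exact Or.inr (Or.inl h8)
        · exact Or.inr (Or.inr (Or.inl ⟨h8, h7⟩))
        · exact Or.inr (Or.inr (Or.inr ⟨h8, h7⟩))
    · intro p hp q hq h7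
      rw [mem_inter] at hp hq
      rcases mem_insert.1 h7 with h8 | h8
      · rw [Sym2.eq_iff] at h8
        rcases h8 with ⟨h8, h9⟩ | ⟨h8, h9⟩
        · exact hx (h8 ▸ hp.1)
        · exact hy (h8 ▸ hp.1)
      · exact h'.noE p hp.1 q hq.1 (mem_inter.1 h8).1
  · rintro ⟨u, v, C, D, h, hu, hv, ⟨a, haW, haC⟩, b, hbW, hbD⟩
    have hCD : ∀ C D : Finset V, Sep (red E Y x y Q) (Y \ Q) u v C D → (∃ a ∈ W, a ∈ C) →
        (∃ b ∈ W, b ∈ D) → x ∉ C → y ∉ C → X2 E Y W := by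
      rintro C D h ⟨a, haW, haC⟩ ⟨b, hbW, hbD⟩ hxC hyC
      have hCs : C ⊆ Y \ Q := by
        rw [← h.eq]
        exact fun w hw => mem_insert_of_mem (mem_insert_of_mem (mem_union_left _ hw))
      have hDs : D ⊆ Y \ Q := by
        rw [← h.eq]
        exact fun w hw => mem_insert_of_mem (mem_insert_of_mem (mem_union_right _ hw))
      have hCP : C ⊆ P := by
        intro w hw
        have h1 := hCs hw
        rw [sdiff_eq hs, mem_insert, mem_insert] at h1
        rcases h1 with h1 | h1 | h1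
        · exact absurd (h1 ▸ hw) hxC
        · exact absurd (h1 ▸ hw) hyC
        · exact h1
      have hus : u ∈ Y \ Q := by
        rw [← h.eq]
        exact mem_insert_self _ _
      have hvs : v ∈ Y \ Q := by
        rw [← h.eq]
        exact mem_insert_of_mem (mem_insert_self _ _)
      refine ⟨u, v, C, D ∪ Q, ⟨h.ne, h.xP, ?_, h.yP, ?_, h.P0, h.Q0.mono subset_union_left, ?_, ?_, ?_⟩,
        hu, hv, ⟨a, haW, haC⟩, b, hbW, mem_union_left _ hbD⟩
      · rw [mem_union]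
        rintro (h1 | h1)
        · exact h.xQ h1
        · exact (mem_sdiff.1 hus).2 h1
      · rw [mem_union]
        rintro (h1 | h1)
        · exact h.yQ h1
        · exact (mem_sdiff.1 hvs).2 h1
      · rw [disjoint_union_right]
        exact ⟨h.dis, disjoint_of_subset_left hCP hs.dis⟩
      · rw [← union_assoc, insert_eq, insert_eq, ← union_assoc, ← union_assoc, ← union_assoc]
        have h1 : {u} ∪ {v} ∪ C ∪ D = Y \ Q := by
          rw [← h.eq, insert_eq, insert_eq, union_assoc, union_assoc]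
        rw [h1]
        have hQY : Q ⊆ Y := by
          rw [← hs.eq]
          exact fun w hw => mem_insert_of_mem (mem_insert_of_mem (mem_union_right _ hw))
        exact sdiff_union_of_subset hQY
      · intro p hp q hq h7
        rcases mem_union.1 hq with hq | hq
        · refine h.noE p hp q hq (mem_insert_of_mem (mem_inter.2 ⟨h7, ?_⟩))
          rw [mk_mem_sym2_iff]
          exact ⟨hCs hp, hDs hq⟩
        · exact hs.noE p (hCP hp) q hq h7
    have hxy : s(x, y) ∈ red E Y x y Q := mem_insert_self _ _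
    by_cases h1 : x ∉ C ∧ y ∉ C
    · exact hCD C D h ⟨a, haW, haC⟩ ⟨b, hbW, hbD⟩ h1.1 h1.2
    · refine hCD D C h.symm ⟨b, hbW, hbD⟩ ⟨a, haW, haC⟩ ?_ ?_
      · intro hxD
        apply h1
        refine ⟨fun h2 => disjoint_left.1 h.dis h2 hxD, fun h2 => ?_⟩
        exact h.noE y h2 x hxD (by rw [Sym2.eq_swap]; exact hxy)
      · intro hyD
        apply h1
        exact ⟨fun h2 => h.noE x h2 y hyD hxy, fun h2 => disjoint_left.1 h.dis h2 hyD⟩

end H30D
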