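import Pool.Agent.Lib.H30D.X6
import Pool.Agent.Lib.H96LD.S6

/-!
# H30D, file X7: the statements of file X6 without the hypothesis about the sides
-/

set_option autoImplicit false
set_option linter.unusedSectionVars false

namespace H30D

open Finset H98M LD

variable {V : Type*} [DecidableEq V]

theorem sideF {E : Finset (Sym2 V)} {Y : Finset V} (hT : TCY E Y) {x y : V} {P Q : Finset V}
    (hs : Sep E Y x y P Q) : SideF E Y x y P Q := by
  have hmem : ∀ (P Q : Finset V), Sep E Y x y P Q → ∀ w ∈ Y, w ∉ Q → w ∈ insert x (insert y P) := by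
    intro P Q hs w hw hwQ
    rw [← hs.eq, mem_insert, mem_insert, mem_union] at hw
    rw [mem_insert, mem_insert]
    rcases hw with h1 | h1 | h1 | h1
    · exact Or.inl h1
    · exact Or.inr (Or.inl h1)
    · exact Or.inr (Or.inr h1)
    · exact absurd h1 hwQ
  intro u v C D h hx hy hne
  have hu : u ∈ Y := by
    rw [← h.eq]
    exact mem_insert_self _ _
  have hv : v ∈ Y := by
    rw [← h.eq]
    exact mem_insert_of_mem (mem_insert_self _ _)
  have hne' : ¬ ((u = x ∧ v = y) ∨ (u = y ∧ v = x)) := by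
    rintro (⟨rfl, rfl⟩ | ⟨rfl, rfl⟩)
    · exact hne rfl
    · exact hne (pair_comm _ _)
  rcases H96LD.side hT hs h hx hy hne' with ⟨h1, h2, h3⟩ | ⟨h1, h2, h3⟩
  · exact Or.inl ⟨h1, hmem P Q hs u hu h2, hmem P Q hs v hv h3⟩
  · exact Or.inr ⟨h1, hmem Q P hs.symm u hu h2, hmem Q P hs.symm v hv h3⟩

/-- (S7) for `X2`. -/
theorem x2_side' {E : Finset (Sym2 V)} {Y W : Finset V} {x y : V} {P Q : Finset V}
    (hT : TCY E Y) (hU : Unc E Y x y) (hs : Sep E Y x y P Q) (hW : W ⊆ Y \ Q) :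
    X2 E Y W ↔ X2 (red E Y x y Q) (Y \ Q) W :=
  x2_side hU hs (sideF hT hs) hW

theorem x2_add' {E : Finset (Sym2 V)} {Y W B : Finset V} {x y : V} {P Q : Finset V}
    (hT : TCY E Y) (hU : Unc E Y x y) (hs : Sep E Y x y P Q) (hW : W ⊆ Y \ Q) (hB : B ⊆ Q)
    (h : X2 E Y W) : X2 E Y (W ∪ B) :=
  x2_add hU hs (sideF hT hs) hW hB h

end H30D
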